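import Mathlib

namespace Pool.Agent.Results.MP_522a36_co.Disproof

variable {X : Type}

/-- `S` shatters the finite set `Y`. -/
def Shatters (S : Set (Set X)) (Y : Finset X) : Prop :=
  ∀ Z : Set X, Z ⊆ Y → ∃ A ∈ S, A ∩ Y = Z

/-- VC-dimension, as an element of `ℕ∞`. -/
noncomputable def VC (S : Set (Set X)) : ℕ∞ :=
  ⨆ (Y : Finset X) (_ : Shatters S Y), (Y.card : ℕ∞)

/-- The `k`-fold union family. -/
def unions (S : Set (Set X)) (k : ℕ) : Set (Set X) :=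
  {U | ∃ f : Fin k → Set X, (∀ i, f i ∈ S) ∧ U = ⋃ i, f i}

/-- The trace family of `S` on `Y`. -/
def trace (S : Set (Set X)) (Y : Finset X) : Set (Set X) := {T | ∃ A ∈ S, T = A ∩ Y}

/-- Shatter-isomorphism. -/
def ShIso (S : Set (Set X)) (Y Y' : Finset X) : Prop :=
  ∃ f : X → X, Set.BijOn f Y Y' ∧ (fun T => f '' T) '' trace S Y = trace S Y'

/-- Sets of size `d_k` shattered by the `k`-fold unions. -/
def MaxSh (S : Set (Set X)) (k : ℕ) : Type :=
  {Y : Finset X // Shatters (unions S k) Y ∧ (Y.card : ℕ∞) = VC (unions S k)}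

/-- `s_k`, the number of shatter-isomorphism classes. -/
noncomputable def s (S : Set (Set X)) (k : ℕ) : ℕ∞ :=
  ENat.card (Quot (fun Y Y' : MaxSh S k => ShIso S Y.1 Y'.1))

/-- The empty set, all singletons, and the pairs `01, 12, 23, 45`. -/
def S0 : Set (Set ℕ) :=
  {A | A = ∅ ∨ (∃ n, A = {n}) ∨ A = {0, 1} ∨ A = {1, 2} ∨ A = {2, 3} ∨ A = {4, 5}}

lemma mem_small {A : Set ℕ} (h : A ∈ S0) :
    ∃ B : Finset ℕ, A = B ∧ (B.card ≤ 1 ∨ (B.card ≤ 2 ∧ B ⊆ Finset.range 6)) := by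
  rcases h with rfl | ⟨n, rfl⟩ | rfl | rfl | rfl | rfl
  · exact ⟨∅, by simp, by simp⟩
  · exact ⟨{n}, by simp, by simp⟩
  · exact ⟨{0, 1}, by simp, by decide⟩
  · exact ⟨{1, 2}, by simp, by decide⟩
  · exact ⟨{2, 3}, by simp, by decide⟩
  · exact ⟨{4, 5}, by simp, by decide⟩

lemma cover {k : ℕ} {Y : Finset ℕ} (h : Shatters (unions S0 k) Y) :
    ∃ B : Fin k → Finset ℕ, Y ⊆ Finset.univ.biUnion B ∧
      ∀ i, (B i).card ≤ 1 ∨ ((B i).card ≤ 2 ∧ B i ⊆ Finset.range 6) := by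
  obtain ⟨A, ⟨f, hf, rfl⟩, hA⟩ := h Y subset_rfl
  choose B hB1 hB2 using fun i => mem_small (hf i)
  refine ⟨B, ?_, hB2⟩
  intro y hy
  have : y ∈ (⋃ i, f i) ∩ (Y : Set ℕ) := by rw [hA]; exact hy
  obtain ⟨i, hi⟩ := Set.mem_iUnion.1 this.1
  rw [hB1 i] at hi
  simp only [Finset.mem_biUnion, Finset.mem_univ, true_and]
  exact ⟨i, hi⟩

lemma card_le {k : ℕ} {Y : Finset ℕ} (h : Shatters (unions S0 k) Y) : Y.card ≤ 2 * k := by
  obtain ⟨B, h1, h2⟩ := cover h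
  calc Y.card ≤ (Finset.univ.biUnion B).card := Finset.card_le_card h1
    _ ≤ ∑ i, (B i).card := Finset.card_biUnion_le
    _ ≤ ∑ _i : Fin k, 2 := Finset.sum_le_sum (fun i _ => by rcases h2 i with h | h <;> omega)
    _ = 2 * k := by simp [mul_comm]

lemma inter_mem (Z : Set ℕ) (a b : ℕ) (h : ({a, b} : Set ℕ) ∈ S0) : Z ∩ {a, b} ∈ S0 := by
  by_cases ha : a ∈ Z <;> by_cases hb : b ∈ Z
  · have : Z ∩ {a, b} = {a, b} := by
      apply Set.inter_eq_right.2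
      rintro x (rfl | rfl) <;> assumption
    rw [this]; exact h
  · refine Or.inr (Or.inl ⟨a, ?_⟩)
    ext x
    simp only [Set.mem_inter_iff, Set.mem_insert_iff, Set.mem_singleton_iff]
    constructor
    · rintro ⟨h1, rfl | rfl⟩
      · rfl
      · exact absurd h1 hb
    · rintro rfl; exact ⟨ha, Or.inl rfl⟩
  · refine Or.inr (Or.inl ⟨b, ?_⟩)
    ext x
    simp only [Set.mem_inter_iff, Set.mem_insert_iff, Set.mem_singleton_iff]
    constructor
    · rintro ⟨h1, rfl | rfl⟩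
      · exact absurd h1 ha
      · rfl
    · rintro rfl; exact ⟨hb, Or.inr rfl⟩
  · refine Or.inl ?_
    ext x
    simp only [Set.mem_inter_iff, Set.mem_insert_iff, Set.mem_singleton_iff, Set.mem_empty_iff_false,
      iff_false]
    rintro ⟨h1, rfl | rfl⟩
    · exact ha h1
    · exact hb h1

lemma m01 : ({0, 1} : Set ℕ) ∈ S0 := Or.inr (Or.inr (Or.inl rfl))
lemma m12 : ({1, 2} : Set ℕ) ∈ S0 := Or.inr (Or.inr (Or.inr (Or.inl rfl)))
lemma m23 : ({2, 3} : Set ℕ) ∈ S0 := Or.inr (Or.inr (Or.inr (Or.inr (Or.inl rfl))))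
lemma m45 : ({4, 5} : Set ℕ) ∈ S0 := Or.inr (Or.inr (Or.inr (Or.inr (Or.inr rfl))))

lemma sh2 (a b c d : ℕ) (h1 : ({a, b} : Set ℕ) ∈ S0) (h2 : ({c, d} : Set ℕ) ∈ S0) :
    Shatters (unions S0 2) {a, b, c, d} := by
  intro Z hZ
  refine ⟨Z, ⟨![Z ∩ {a, b}, Z ∩ {c, d}], ?_, ?_⟩, Set.inter_eq_left.2 hZ⟩
  · intro i
    fin_cases i
    · exact inter_mem Z a b h1
    · exact inter_mem Z c d h2
  · ext x
    have := @hZ x
    simp only [Set.mem_iUnion, Fin.exists_fin_two]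
    simp at this ⊢
    tauto

lemma sh3 : Shatters (unions S0 3) (Finset.range 6) := by
  intro Z hZ
  refine ⟨Z, ⟨![Z ∩ {0, 1}, Z ∩ {2, 3}, Z ∩ {4, 5}], ?_, ?_⟩, Set.inter_eq_left.2 hZ⟩
  · intro i
    fin_cases i
    · exact inter_mem Z _ _ m01
    · exact inter_mem Z _ _ m23
    · exact inter_mem Z _ _ m45
  · ext x
    have := @hZ x
    simp only [Set.mem_iUnion, Fin.exists_fin_succ]
    simp at this ⊢
    constructor
    · intro hx
      have := this hx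
      simp only [hx, true_and]
      omega
    · tauto

lemma vc_eq {k : ℕ} {Y : Finset ℕ} (h : Shatters (unions S0 k) Y) (hc : Y.card = 2 * k) :
    VC (unions S0 k) = ((2 * k : ℕ) : ℕ∞) := by
  apply le_antisymm
  · exact iSup₂_le fun Y hY => by exact_mod_cast card_le hY
  · rw [← hc]
    exact le_iSup₂_of_le (f := fun (Y : Finset ℕ) (_ : Shatters (unions S0 k) Y) =>
      (Y.card : ℕ∞)) Y h le_rfl

lemma vc2 : VC (unions S0 2) = ((2 * 2 : ℕ) : ℕ∞) := vc_eq (sh2 0 1 2 3 m01 m23) (by decide)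
lemma vc3 : VC (unions S0 3) = ((2 * 3 : ℕ) : ℕ∞) := vc_eq sh3 (by decide)

lemma uniq (Y : MaxSh S0 3) : Y.1 = Finset.range 6 := by
  obtain ⟨Y, h1, h2⟩ := Y
  rw [vc3] at h2
  have hc : Y.card = 6 := by exact_mod_cast h2
  obtain ⟨B, hB1, hB2⟩ := cover h1
  have h3 : Y.card ≤ ∑ i, (B i).card := (Finset.card_le_card hB1).trans Finset.card_biUnion_le
  rw [Fin.sum_univ_three] at h3
  have hall : ∀ i, B i ⊆ Finset.range 6 := by
    have a0 := hB2 0
    have a1 := hB2 1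
    have a2 := hB2 2
    have b0 : (B 0).card ≤ 2 := by rcases a0 with h | h <;> omega
    have b1 : (B 1).card ≤ 2 := by rcases a1 with h | h <;> omega
    have b2 : (B 2).card ≤ 2 := by rcases a2 with h | h <;> omega
    intro i
    fin_cases i
    · exact (a0.resolve_left (by omega)).2
    · exact (a1.resolve_left (by omega)).2
    · exact (a2.resolve_left (by omega)).2
  apply Finset.eq_of_subset_of_card_le
  · intro y hy
    obtain ⟨i, _, hi⟩ := Finset.mem_biUnion.1 (hB1 hy)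
    exact hall i hi
  · simp [hc]

lemma s3 : s S0 3 ≤ 1 := by
  have : Subsingleton (MaxSh S0 3) := ⟨fun a b => Subtype.ext ((uniq a).trans (uniq b).symm)⟩
  have : Subsingleton (Quot (fun Y Y' : MaxSh S0 3 => ShIso S0 Y.1 Y'.1)) := inferInstance
  exact ENat.card_le_one

/-- Two crossing traces: an invariant of shatter-isomorphism. -/
def Cross (Y : Finset ℕ) : Prop :=
  ∃ T ∈ trace S0 Y, ∃ T' ∈ trace S0 Y, (T ∩ T').Nonempty ∧ ¬ T ⊆ T' ∧ ¬ T' ⊆ T

lemma tr_sub {Y : Finset ℕ} {T : Set ℕ} (h : T ∈ trace S0 Y) : T ⊆ Y := by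
  obtain ⟨A, _, rfl⟩ := h
  exact Set.inter_subset_right

lemma cross_iff {Y Y' : Finset ℕ} (h : ShIso S0 Y Y') : Cross Y ↔ Cross Y' := by
  obtain ⟨f, hf, h⟩ := h
  have key : ∀ T ∈ trace S0 Y, ∀ T' ∈ trace S0 Y, (f '' T ⊆ f '' T' ↔ T ⊆ T') :=
    fun T hT T' hT' => hf.injOn.image_subset_image_iff (tr_sub hT) (tr_sub hT')
  have key2 : ∀ T ∈ trace S0 Y, ∀ T' ∈ trace S0 Y,
      ((f '' T ∩ f '' T').Nonempty ↔ (T ∩ T').Nonempty) := by
    intro T hT T' hT'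
    rw [← hf.injOn.image_inter (tr_sub hT) (tr_sub hT'), Set.image_nonempty]
  constructor
  · rintro ⟨T, hT, T', hT', h1, h2, h3⟩
    refine ⟨f '' T, h ▸ ⟨T, hT, rfl⟩, f '' T', h ▸ ⟨T', hT', rfl⟩, (key2 T hT T' hT').2 h1,
      fun hh => h2 ((key T hT T' hT').1 hh), fun hh => h3 ((key T' hT' T hT).1 hh)⟩
  · rintro ⟨U, hU, U', hU', h1, h2, h3⟩
    rw [← h] at hU hU'
    obtain ⟨T, hT, rfl⟩ := hU
    obtain ⟨T', hT', rfl⟩ := hU'
    exact ⟨T, hT, T', hT', (key2 T hT T' hT').1 h1,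
      fun hh => h2 ((key T hT T' hT').2 hh), fun hh => h3 ((key T' hT' T hT).2 hh)⟩

lemma cross1 : Cross {0, 1, 2, 3} := by
  refine ⟨{0, 1}, ⟨_, m01, ?_⟩, {1, 2}, ⟨_, m12, ?_⟩, ⟨1, by simp⟩, ?_, ?_⟩
  · symm; apply Set.inter_eq_left.2; rintro x (rfl | rfl) <;> simp
  · symm; apply Set.inter_eq_left.2; rintro x (rfl | rfl) <;> simp
  · intro h; have := @h 0 (by simp); simp at this
  · intro h; have := @h 2 (by simp); simp at this

lemma tr2 {T : Set ℕ} (h : T ∈ trace S0 {0, 1, 4, 5}) :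
    T.Subsingleton ∨ T = {0, 1} ∨ T = {4, 5} := by
  obtain ⟨A, hA, rfl⟩ := h
  rcases hA with rfl | ⟨n, rfl⟩ | rfl | rfl | rfl | rfl
  · left; simp
  · left; exact Set.subsingleton_singleton.anti Set.inter_subset_left
  · right; left; apply Set.inter_eq_left.2; rintro x (rfl | rfl) <;> simp
  · left; intro x hx y hy; simp at hx hy; omega
  · left; intro x hx y hy; simp at hx hy; omega
  · right; right; apply Set.inter_eq_left.2; rintro x (rfl | rfl) <;> simp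

lemma cross2 : ¬ Cross {0, 1, 4, 5} := by
  rintro ⟨T, hT, T', hT', ⟨x, hx, hx'⟩, h2, h3⟩
  rcases tr2 hT with h | h
  · exact h2 (fun y hy => h hx hy ▸ hx')
  rcases tr2 hT' with h' | h'
  · exact h3 (fun y hy => h' hx' hy ▸ hx)
  rcases h with rfl | rfl <;> rcases h' with rfl | rfl
  · exact h2 subset_rfl
  · simp at hx hx'; omega
  · simp at hx hx'; omega
  · exact h2 subset_rfl

lemma s2 : 1 < s S0 2 := by
  let a : MaxSh S0 2 := ⟨{0, 1, 2, 3}, sh2 0 1 2 3 m01 m23, by rw [vc2]; rfl⟩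
  let b : MaxSh S0 2 := ⟨{0, 1, 4, 5}, sh2 0 1 4 5 m01 m45, by rw [vc2]; rfl⟩
  have : Nontrivial (Quot (fun Y Y' : MaxSh S0 2 => ShIso S0 Y.1 Y'.1)) := by
    refine ⟨Quot.mk _ a, Quot.mk _ b, fun h => ?_⟩
    have := congrArg (Quot.lift (fun Y : MaxSh S0 2 => Cross Y.1)
      (fun _ _ h => propext (cross_iff h))) h
    exact cross2 (Eq.mp this cross1)
  exact ENat.one_lt_card

lemma vc1 : VC S0 ≤ 2 := by
  refine iSup₂_le fun Y hY => ?_
  have : Shatters (unions S0 1) Y := by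
    intro Z hZ
    obtain ⟨A, hA, h⟩ := hY Z hZ
    exact ⟨A, ⟨fun _ => A, fun _ => hA, by simp [Set.iUnion_const]⟩, h⟩
  exact_mod_cast card_le this

theorem result : ∃ S : Set (Set ℕ), (∀ n, {n} ∈ S) ∧ VC S < ⊤ ∧
    VC (unions S 2) < VC (unions S 3) ∧ s S 3 < s S 2 := by
  refine ⟨S0, fun n => Or.inr (Or.inl ⟨n, rfl⟩), lt_of_le_of_lt vc1 (by decide), ?_,
    lt_of_le_of_lt s3 s2⟩
  rw [vc2, vc3]
  decide

end Pool.Agent.Results.MP_522a36_co.Disproof
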